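import Pool.Agent.Run7.h570.GH.Iface

/-!
# Graph hypersurfaces: transport along regular bijections on points (piece PIso)

The reduced ring of a presentation is determined by the points in fields, and the property `P` does not
see nilpotent elements.
-/

set_option autoImplicit false

open CategoryTheory AlgebraicGeometry MvPolynomial Pool.Agent.Y116.UV Pool.Agent.Z125.UN
  Pool.Agent.Q282.UZ Run7.h570.GH

namespace Run7.h158.GH

variable {R : Type} [CommRing R]

section points

variable {C : Type} [CommRing C] [Algebra R C]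

/-- Prime ideals are the kernels of points in fields. -/
lemma ker_point (p : Ideal C) [p.IsPrime] : ∃ (K : Type) (_ : Field K) (_ : Algebra R K)
    (φ : C →ₐ[R] K), ∀ c, φ c = 0 ↔ c ∈ p := by
  refine ⟨FractionRing (C ⧸ p), inferInstance, inferInstance,
    (IsScalarTower.toAlgHom R (C ⧸ p) (FractionRing (C ⧸ p))).comp (Ideal.Quotient.mkₐ R p),
    fun c => ?_⟩
  rw [← Ideal.Quotient.eq_zero_iff_mem]
  change algebraMap (C ⧸ p) (FractionRing (C ⧸ p)) (Ideal.Quotient.mk p c) = 0 ↔ _
  exact map_eq_zero_iff _ (IsFractionRing.injective (C ⧸ p) (FractionRing (C ⧸ p)))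

/-- An element which vanishes at all points in fields is nilpotent. -/
lemma nil_of_points (c : C) (h : ∀ (K : Type) [Field K] [Algebra R K] (φ : C →ₐ[R] K), φ c = 0) :
    IsNilpotent c := by
  rw [← mem_nilradical, nilradical_eq_sInf, Ideal.mem_sInf]
  intro p hp
  have : p.IsPrime := hp
  obtain ⟨K, _, _, φ, hφ⟩ := ker_point (R := R) p
  exact (hφ c).mp (h K φ)

lemma zero_of_points [IsReduced C] (c : C)
    (h : ∀ (K : Type) [Field K] [Algebra R K] (φ : C →ₐ[R] K), φ c = 0) : c = 0 :=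
  (nil_of_points c h).eq_zero

lemma eq_of_points [IsReduced C] (c d : C)
    (h : ∀ (K : Type) [Field K] [Algebra R K] (φ : C →ₐ[R] K), φ c = φ d) : c = d := by
  rw [← sub_eq_zero]
  refine zero_of_points (R := R) _ fun K _ _ φ => ?_
  rw [map_sub, h K φ, sub_self]

/-- An element which does not vanish at any point is a unit. -/
lemma unit_of_points (c : C)
    (h : ∀ (K : Type) [Field K] [Algebra R K] (φ : C →ₐ[R] K), φ c ≠ 0) : IsUnit c := by
  by_contra hc
  obtain ⟨m, hm, hcm⟩ := exists_max_ideal_of_mem_nonunits hc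
  obtain ⟨K, _, _, φ, hφ⟩ := ker_point (R := R) m
  exact h K φ ((hφ c).mpr hcm)

end points

section maps

variable {σ τ κ₁ κ : Type} {S : Fam R σ} {T : Fam R τ} {G₁ : κ₁ → MvPolynomial σ R}
  {w₁ : MvPolynomial σ R} {G : κ → MvPolynomial τ R} {w : MvPolynomial τ R}

/-- The coordinates in the reduced ring. -/
noncomputable def rv (G : κ → MvPolynomial τ R) (w : MvPolynomial τ R) (t : τ) :
    Pc G w ⧸ nilradical (Pc G w) := Ideal.Quotient.mkₐ R (nilradical (Pc G w)) (pv G w t)

/-- Points of the reduced ring are points of the family. -/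
lemma point_mem (hS : Is S G₁ w₁) (K : Type) [Field K] [Algebra R K]
    (φ : (Pc G₁ w₁ ⧸ nilradical (Pc G₁ w₁)) →ₐ[R] K) : S K fun s => φ (rv G₁ w₁ s) := by
  have h : ∀ p : MvPolynomial σ R, aeval (fun s => φ (rv G₁ w₁ s)) p =
      φ (Ideal.Quotient.mkₐ R (nilradical (Pc G₁ w₁)) (pc G₁ w₁ p)) := fun p =>
    aeval_pv_comp G₁ w₁ (φ.comp (Ideal.Quotient.mkₐ R (nilradical (Pc G₁ w₁)))) p
  rw [hS]
  refine ⟨fun k => ?_, ?_⟩
  · rw [h, pc_rel, map_zero, map_zero]
  · rw [h]
    exact (((pc_unit G₁ w₁).map (Ideal.Quotient.mkₐ R (nilradical (Pc G₁ w₁)))).map φ).ne_zero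

instance : IsReduced (Pc G w ⧸ nilradical (Pc G w)) :=
  (Ideal.isRadical_iff_quotient_reduced (nilradical (Pc G w))).mp (Ideal.radical_isRadical 0)

/-- A regular map between the families gives the coordinates of a homomorphism of the reduced rings. -/
lemma exists_coord (hS : Is S G₁ w₁) (f : ∀ (K : Type) [Field K] [Algebra R K], (σ → K) → τ → K)
    (hf : ∀ t, Rg S fun K _ _ x => f K x t) :
    ∃ v : τ → Pc G₁ w₁ ⧸ nilradical (Pc G₁ w₁), ∀ (K : Type) [Field K] [Algebra R K]
      (φ : (Pc G₁ w₁ ⧸ nilradical (Pc G₁ w₁)) →ₐ[R] K) (t : τ),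
        φ (v t) = f K (fun s => φ (rv G₁ w₁ s)) t := by
  have key : ∀ t, ∃ v : Pc G₁ w₁ ⧸ nilradical (Pc G₁ w₁), ∀ (K : Type) [Field K] [Algebra R K]
      (φ : (Pc G₁ w₁ ⧸ nilradical (Pc G₁ w₁)) →ₐ[R] K),
        φ v = f K (fun s => φ (rv G₁ w₁ s)) t := by
    intro t
    obtain ⟨n, d, hnd⟩ := hf t
    have hp : ∀ (p : MvPolynomial σ R) (K : Type) [Field K] [Algebra R K]
        (φ : (Pc G₁ w₁ ⧸ nilradical (Pc G₁ w₁)) →ₐ[R] K),
        aeval (fun s => φ (rv G₁ w₁ s)) p =
          φ (Ideal.Quotient.mkₐ R (nilradical (Pc G₁ w₁)) (pc G₁ w₁ p)) := fun p K _ _ φ =>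
      aeval_pv_comp G₁ w₁ (φ.comp (Ideal.Quotient.mkₐ R (nilradical (Pc G₁ w₁)))) p
    obtain ⟨u, hu⟩ := unit_of_points (R := R)
      (Ideal.Quotient.mkₐ R (nilradical (Pc G₁ w₁)) (pc G₁ w₁ d)) (fun K _ _ φ => by
        rw [← hp]
        exact (hnd K _ (point_mem hS K φ)).1)
    refine ⟨Ideal.Quotient.mkₐ R (nilradical (Pc G₁ w₁)) (pc G₁ w₁ n) * (u⁻¹ : _ˣ), ?_⟩
    intro K _ _ φ
    obtain ⟨h1, h2⟩ := hnd K _ (point_mem hS K φ)
    have h3 : (φ u : K) ≠ 0 := by
      rw [hu, ← hp]
      exact h1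
    have h4 : φ ((u⁻¹ : _ˣ) : Pc G₁ w₁ ⧸ nilradical (Pc G₁ w₁)) * φ u = 1 := by
      rw [← map_mul, Units.inv_mul, map_one]
    apply mul_right_cancel₀ h3
    rw [map_mul, mul_assoc, h4, mul_one, hu, ← hp, ← hp]
    exact h2.symm
  choose v hv using key
  exact ⟨v, fun K _ _ φ t => hv t K φ⟩

/-- A regular map between the families gives a homomorphism of the reduced rings. -/
lemma exists_hom (hS : Is S G₁ w₁) (hT : Is T G w)
    (f : ∀ (K : Type) [Field K] [Algebra R K], (σ → K) → τ → K)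
    (hf : ∀ t, Rg S fun K _ _ x => f K x t)
    (hm : ∀ (K : Type) [Field K] [Algebra R K] (x : σ → K), S K x → T K (f K x)) :
    ∃ F : (Pc G w ⧸ nilradical (Pc G w)) →ₐ[R] (Pc G₁ w₁ ⧸ nilradical (Pc G₁ w₁)),
      ∀ (K : Type) [Field K] [Algebra R K]
        (φ : (Pc G₁ w₁ ⧸ nilradical (Pc G₁ w₁)) →ₐ[R] K) (t : τ),
        φ (F (rv G w t)) = f K (fun s => φ (rv G₁ w₁ s)) t := by
  obtain ⟨v, hv⟩ := exists_coord hS f hf
  have hva : ∀ (p : MvPolynomial τ R) (K : Type) [Field K] [Algebra R K]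
      (φ : (Pc G₁ w₁ ⧸ nilradical (Pc G₁ w₁)) →ₐ[R] K),
      φ (aeval v p) = aeval (f K fun s => φ (rv G₁ w₁ s)) p := by
    intro p K _ _ φ
    have h1 : (φ.comp (aeval v) : MvPolynomial τ R →ₐ[R] K) =
        aeval (f K fun s => φ (rv G₁ w₁ s)) := by
      apply MvPolynomial.algHom_ext
      intro t
      rw [AlgHom.comp_apply, aeval_X, aeval_X, hv]
    exact congrArg (fun k : MvPolynomial τ R →ₐ[R] K => k p) h1
  have hG : ∀ k, aeval v (G k) = 0 := fun k => by
    refine zero_of_points (R := R) _ fun K _ _ φ => ?_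
    rw [hva]
    exact ((hT K _).mp (hm K _ (point_mem hS K φ))).1 k
  have hw : IsUnit (aeval v w) := by
    refine unit_of_points (R := R) _ fun K _ _ φ => ?_
    rw [hva]
    exact ((hT K _).mp (hm K _ (point_mem hS K φ))).2
  refine ⟨Ideal.Quotient.liftₐ (nilradical (Pc G w)) (pcLift G w v hG hw) ?_, ?_⟩
  · intro a ha
    exact ((mem_nilradical.mp ha).map (pcLift G w v hG hw)).eq_zero
  · intro K _ _ φ t
    have h1 : Ideal.Quotient.liftₐ (nilradical (Pc G w)) (pcLift G w v hG hw)
        (fun a ha => ((mem_nilradical.mp ha).map (pcLift G w v hG hw)).eq_zero) (rv G w t) =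
          v t := pcLift_pv G w v hG hw t
    rw [← hv]
    exact congrArg φ h1

lemma red_ext {C : Type} [CommRing C] [Algebra R C]
    {F F' : (Pc G w ⧸ nilradical (Pc G w)) →ₐ[R] C} (h : ∀ t, F (rv G w t) = F' (rv G w t)) :
    F = F' := by
  apply Ideal.Quotient.algHom_ext
  apply pc_ext
  intro s
  exact h s

/-- The reduced rings are isomorphic. -/
lemma exists_equiv (hS : Is S G₁ w₁) (hT : Is T G w)
    (f : ∀ (K : Type) [Field K] [Algebra R K], (σ → K) → τ → K)
    (g : ∀ (K : Type) [Field K] [Algebra R K], (τ → K) → σ → K)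
    (hf : ∀ t, Rg S fun K _ _ x => f K x t) (hg : ∀ s, Rg T fun K _ _ y => g K y s)
    (hfm : ∀ (K : Type) [Field K] [Algebra R K] (x : σ → K), S K x → T K (f K x))
    (hgm : ∀ (K : Type) [Field K] [Algebra R K] (y : τ → K), T K y → S K (g K y))
    (hgf : ∀ (K : Type) [Field K] [Algebra R K] (x : σ → K), S K x → g K (f K x) = x)
    (hfg : ∀ (K : Type) [Field K] [Algebra R K] (y : τ → K), T K y → f K (g K y) = y) :
    Nonempty ((Pc G₁ w₁ ⧸ nilradical (Pc G₁ w₁)) ≃ₐ[R] (Pc G w ⧸ nilradical (Pc G w))) := by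
  obtain ⟨F, hF⟩ := exists_hom hS hT f hf hfm
  obtain ⟨F', hF'⟩ := exists_hom hT hS g hg hgm
  refine ⟨AlgEquiv.ofAlgHom F' F ?_ ?_⟩
  · apply red_ext
    intro t
    refine eq_of_points (R := R) _ _ fun K _ _ φ => ?_
    have h1 := hF K (φ.comp F') t
    have h2 : (fun s => φ.comp F' (rv G₁ w₁ s)) = g K fun t => φ (rv G w t) := by
      funext s
      exact hF' K φ s
    rw [h2, hfg K _ (point_mem hT K φ)] at h1
    exact h1
  · apply red_ext
    intro s
    refine eq_of_points (R := R) _ _ fun K _ _ φ => ?_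
    have h1 := hF' K (φ.comp F) s
    have h2 : (fun t => φ.comp F (rv G w t)) = f K fun s => φ (rv G₁ w₁ s) := by
      funext t
      exact hF K φ t
    rw [h2, hgf K _ (point_mem hS K φ)] at h1
    exact h1

end maps

section nilpotents

variable {sep : Prop} {P : Sch R → Prop} (hP : GClo sep P)
  {A B : Type} [CommRing A] [CommRing B] [Algebra R A] [Algebra R B]

include hP

lemma gclo_alg [Algebra.FiniteType R A] (e : A ≃ₐ[R] B) (h : P (aff R A)) : P (aff R B) :=
  hP.iso (ft_aff sep) ⟨(affIso e).symm⟩ h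

/-- The zero ring. -/
lemma p_zero [Algebra.FiniteType R A] (h : P (aff R A)) : P (aff R (Localization.Away (0 : A))) := by
  refine hP.opened (𝟙 (aff R A)) (affMap (IsScalarTower.toAlgHom R A (Localization.Away (0 : A))))
    (ft_aff sep) ⟨?_, (triple_away (R := R) (0 : A)).opened, ?_⟩ h h
  · exact inferInstanceAs (IsClosedImmersion (𝟙 (aff R A).left))
  · have h1 : Set.range (𝟙 (aff R A) : aff R A ⟶ aff R A).left = Set.univ := Set.range_id
    have h2 : Set.range (affMap (IsScalarTower.toAlgHom R A (Localization.Away (0 : A)))).left =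
        (PrimeSpectrum.basicOpen (0 : A) : Set (PrimeSpectrum A)) :=
      PrimeSpectrum.localization_away_comap_range _ 0
    rw [h1, h2, PrimeSpectrum.basicOpen_zero]
    exact (Set.compl_empty).symm

omit hP in
lemma triple_red : IsTriple (affMap (Ideal.Quotient.mkₐ R (nilradical A)))
    (affMap (IsScalarTower.toAlgHom R A (Localization.Away (0 : A)))) where
  closed := closed_affMap _ (Ideal.Quotient.mkₐ_surjective R _)
  opened := (triple_away (R := R) (0 : A)).opened
  compl := by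
    rw [range_affMap _ (Ideal.Quotient.mkₐ_surjective R _)]
    have h2 : Set.range (affMap (IsScalarTower.toAlgHom R A (Localization.Away (0 : A)))).left =
        (PrimeSpectrum.basicOpen (0 : A) : Set (PrimeSpectrum A)) :=
      PrimeSpectrum.localization_away_comap_range _ 0
    rw [h2, PrimeSpectrum.basicOpen_zero]
    have h3 : {x : PrimeSpectrum A | ∀ a, Ideal.Quotient.mkₐ R (nilradical A) a = 0 → a ∈ x.asIdeal} =
        Set.univ := by
      rw [Set.eq_univ_iff_forall]
      intro x a ha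
      have h4 : a ∈ nilradical A := Ideal.Quotient.eq_zero_iff_mem.mp ha
      exact nilradical_le_prime x.asIdeal h4
    rw [h3]
    exact (Set.compl_empty).symm

lemma p_red [Algebra.FiniteType R A] (h : P (aff R A)) : P (aff R (A ⧸ nilradical A)) :=
  hP.closed _ _ (ft_aff sep) triple_red h (p_zero hP h)

omit hP in
lemma sub_away (A : Type) [CommRing A] : Subsingleton (Localization.Away (0 : A)) := by
  rw [← not_nontrivial_iff_subsingleton]
  intro h
  have h1 := IsLocalization.map_units (M := Submonoid.powers (0 : A)) (Localization.Away (0 : A))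
    ⟨_, Submonoid.mem_powers _⟩
  rw [map_zero] at h1
  exact not_isUnit_zero h1

omit hP in
/-- Zero rings are isomorphic. -/
def zeroEquiv (A B : Type) [CommRing A] [CommRing B] [Algebra R A] [Algebra R B] [Subsingleton A]
    [Subsingleton B] : A ≃ₐ[R] B where
  toFun _ := 0
  invFun _ := 0
  left_inv _ := Subsingleton.elim _ _
  right_inv _ := Subsingleton.elim _ _
  map_mul' _ _ := Subsingleton.elim _ _
  map_add' _ _ := Subsingleton.elim _ _
  commutes' _ := Subsingleton.elim _ _

lemma p_of_red [Algebra.FiniteType R A] (h : P (aff R (A ⧸ nilradical A))) : P (aff R A) := by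
  have h1 : Algebra.FiniteType R (A ⧸ nilradical A) := inferInstance
  have h2 := p_zero hP h
  have : Algebra.FiniteType R (Localization.Away (0 : A ⧸ nilradical A)) :=
    Algebra.FiniteType.trans (S := A ⧸ nilradical A) inferInstance inferInstance
  have := sub_away (A ⧸ nilradical A)
  have := sub_away A
  exact hP.total _ _ (ft_aff sep) triple_red h (gclo_alg hP (zeroEquiv _ _) h2)

end nilpotents

/-- **Piece PIso.** -/
theorem t_PIso : PIso := by
  intro R _ sep P hP σ τ _ _ S T f g hf hg hfm hgm hgf hfg hQ κ G w hT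
  obtain ⟨κ₁, G₁, w₁, hS, hA⟩ := hQ
  obtain ⟨e⟩ := exists_equiv hS hT f g hf hg hfm hgm hgf hfg
  exact p_of_red hP (gclo_alg hP e (p_red hP hA))

end Run7.h158.GH
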