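import Pool.Agent.Run7.h158.GH.PIso

/-!
# Graph hypersurfaces: additional free coordinates (piece PLine)
-/

set_option autoImplicit false

open CategoryTheory AlgebraicGeometry MvPolynomial Pool.Agent.Y116.UV Pool.Agent.Z125.UN
  Pool.Agent.Q282.UZ Run7.h570.GH

namespace Run7.h158.GH

variable {R : Type} [CommRing R]

section clo

variable {sep : Prop} {P : Sch R → Prop} (hP : GClo sep P)

include hP

/-- Polynomial rings. -/
lemma line_fin {A : Type} [CommRing A] [Algebra R A] [Algebra.FiniteType R A] (n : ℕ) :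
    P (aff R (MvPolynomial (Fin n) A)) ↔ P (aff R A) := by
  induction n with
  | zero =>
    have : Algebra.FiniteType R (MvPolynomial (Fin 0) A) :=
      Algebra.FiniteType.trans (S := A) inferInstance inferInstance
    exact ⟨gclo_alg hP ((isEmptyAlgEquiv A (Fin 0)).restrictScalars R),
      gclo_alg hP ((isEmptyAlgEquiv A (Fin 0)).symm.restrictScalars R)⟩
  | succ n ih =>
    have h1 : Algebra.FiniteType R (MvPolynomial (Fin n) A) :=
      Algebra.FiniteType.trans (S := A) inferInstance inferInstance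
    have h2 : Algebra.FiniteType R (MvPolynomial (Fin (n + 1)) A) :=
      Algebra.FiniteType.trans (S := A) inferInstance inferInstance
    have h3 : Algebra.FiniteType R (MvPolynomial (Fin 1) (MvPolynomial (Fin n) A)) :=
      Algebra.FiniteType.trans (S := MvPolynomial (Fin n) A) inferInstance inferInstance
    let e : Fin (n + 1) ≃ Fin 1 ⊕ Fin n := (finCongr (Nat.add_comm n 1)).trans finSumFinEquiv.symm
    let E : MvPolynomial (Fin (n + 1)) A ≃ₐ[A] MvPolynomial (Fin 1) (MvPolynomial (Fin n) A) :=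
      (renameEquiv A e).trans (sumAlgEquiv A (Fin 1) (Fin n))
    rw [← ih, ← hP.line (MvPolynomial (Fin n) A)]
    exact ⟨gclo_alg hP (E.restrictScalars R), gclo_alg hP (E.symm.restrictScalars R)⟩

/-- Polynomial rings. -/
lemma line_finite {A : Type} [CommRing A] [Algebra R A] [Algebra.FiniteType R A] (τ : Type)
    [Finite τ] : P (aff R (MvPolynomial τ A)) ↔ P (aff R A) := by
  have := Fintype.ofFinite τ
  have h1 : Algebra.FiniteType R (MvPolynomial (Fin (Fintype.card τ)) A) :=
    Algebra.FiniteType.trans (S := A) inferInstance inferInstance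
  have h2 : Algebra.FiniteType R (MvPolynomial τ A) :=
    Algebra.FiniteType.trans (S := A) inferInstance inferInstance
  rw [← line_fin (A := A) hP (Fintype.card τ)]
  exact ⟨gclo_alg hP ((renameEquiv A (Fintype.equivFin τ)).restrictScalars R),
    gclo_alg hP ((renameEquiv A (Fintype.equivFin τ).symm).restrictScalars R)⟩

/-- `P` does not depend on the presentation. -/
lemma pres_indep {σ κ : Type} [Finite σ] {S : Fam R σ} (hQ : Q P S) (G : κ → MvPolynomial σ R)
    (w : MvPolynomial σ R) (hS : Is S G w) : P (aff R (Pc G w)) := by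
  have hr : ∀ s : σ, Rg S fun K _ _ x => x s := fun s =>
    ⟨X s, 1, fun K _ _ x _ => by
      rw [map_one, mul_one, aeval_X]
      exact ⟨one_ne_zero, rfl⟩⟩
  exact t_PIso sep P hP S S (fun _ _ _ x => x) (fun _ _ _ x => x) hr hr (fun _ _ _ _ h => h)
    (fun _ _ _ _ h => h) (fun _ _ _ _ _ => rfl) (fun _ _ _ _ _ => rfl) hQ G w hS

end clo

/-- The presentation of the product with an affine space. -/
lemma is_rl {σ κ : Type} (τ : Type) {S : Fam R σ} {G : κ → MvPolynomial σ R}
    {w : MvPolynomial σ R} (hS : Is S G w) :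
    Is (fun K _ _ (x : σ ⊕ τ → K) => S K fun s => x (Sum.inl s)) (rl G τ) (rename Sum.inl w) := by
  intro K _ _ x
  have h : ∀ p : MvPolynomial σ R, aeval x (rename Sum.inl p : MvPolynomial (σ ⊕ τ) R) =
      aeval (fun s => x (Sum.inl s)) p := fun p => aeval_rename _ _ _
  simp only [rl, h]
  exact hS K _

/-- The presentation of a factor of a product with an affine space. -/
lemma rep_of_line {σ τ : Type} {S : Fam R σ}
    (h : Rep (R := R) fun K _ _ (x : σ ⊕ τ → K) => S K fun s => x (Sum.inl s)) : Rep S := by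
  obtain ⟨κ, G, w, hS⟩ := h
  refine ⟨κ, fun k => aeval (Sum.elim X (fun _ => 0) : σ ⊕ τ → MvPolynomial σ R) (G k),
    aeval (Sum.elim X (fun _ => 0) : σ ⊕ τ → MvPolynomial σ R) w, ?_⟩
  intro K _ _ x
  have h1 : ∀ p : MvPolynomial (σ ⊕ τ) R,
      aeval x (aeval (Sum.elim X (fun _ => 0) : σ ⊕ τ → MvPolynomial σ R) p) =
        aeval (Sum.elim x (fun _ => 0)) p := by
    intro p
    have h2 : (aeval x).comp (aeval (Sum.elim X (fun _ => 0) : σ ⊕ τ → MvPolynomial σ R)) =
        (aeval (Sum.elim x (fun _ => 0)) : MvPolynomial (σ ⊕ τ) R →ₐ[R] K) := by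
      apply MvPolynomial.algHom_ext
      rintro (s | t)
      · simp
      · simp
    exact congrArg (fun k : MvPolynomial (σ ⊕ τ) R →ₐ[R] K => k p) h2
  simp only [h1]
  exact hS K (Sum.elim x fun _ => 0)

/-- **Piece PLine.** -/
theorem t_PLine : PLine := by
  intro R _ sep P hP σ τ _ _ S
  constructor
  · intro hQ
    obtain ⟨κ, G, w, hS⟩ := rep_of_line (S := S) (τ := τ) (by
      obtain ⟨κ, G, w, h, _⟩ := hQ
      exact ⟨κ, G, w, h⟩)
    refine ⟨κ, G, w, hS, ?_⟩
    have h1 := pres_indep hP hQ _ _ (is_rl τ hS)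
    exact (line_finite hP τ).mp (gclo_alg hP (polyE G w τ).symm h1)
  · rintro ⟨κ, G, w, hS, hA⟩
    have : Algebra.FiniteType R (MvPolynomial τ (Pc G w)) :=
      Algebra.FiniteType.trans (S := Pc G w) inferInstance inferInstance
    exact ⟨κ, rl G τ, rename Sum.inl w, is_rl τ hS,
      gclo_alg hP (polyE G w τ) ((line_finite hP τ).mpr hA)⟩

end Run7.h158.GH
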